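import Pool.Agent.H96.PR.G
import Pool.Graph.R_pool_sql_team_seeded_2aa45f1a.Q25.TPol

set_option autoImplicit false

/-! Tuples of constant terms from arbitrary finite families of integers of small energy, for functions of the type of
the Liouville function. -/

namespace Pool.Agent.H96.LM
open Finset
open Pool.Agent.TH935.GF (En)
open Pool.Agent.H373R2.T7 (SupSmall)
open Pool.Agent.Q25.TFam (even TwoSided)

/-- finite families as sequences -/
lemma reindex {Z : Type} [Fintype Z] (v : Z → ℤ) : ∃ (e : Z → ℕ) (s : ℕ → ℤ), Function.Injective e ∧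
    (∀ z, e z ∈ Icc 1 (Fintype.card Z)) ∧ (∀ m ∈ Icc 1 (Fintype.card Z), ∃ z, e z = m) ∧ (∀ z, s (e z) = v z) ∧
    ∀ p, Pool.Agent.H373R2.T7.energy p (Fintype.card Z) s = En p v := by
  classical
  obtain ⟨φ⟩ : Nonempty (Z ≃ Fin (Fintype.card Z)) := ⟨Fintype.equivFin Z⟩
  obtain ⟨e, he⟩ : ∃ e : Z → ℕ, e = fun z => (φ z : ℕ) + 1 := ⟨_, rfl⟩
  obtain ⟨s, hs⟩ : ∃ s : ℕ → ℤ, s = fun m => if hm : m - 1 < Fintype.card Z then v (φ.symm ⟨m - 1, hm⟩) else 0 := ⟨_, rfl⟩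
  have hse : ∀ z, s (e z) = v z := by
    intro z
    rw [hs, he]
    simp only [Nat.add_sub_cancel]
    rw [dif_pos (φ z).2]
    simp
  have hinj : Function.Injective e := by
    intro z z' h
    rw [he] at h
    simp only [Nat.add_right_cancel_iff] at h
    exact φ.injective (Fin.ext h)
  have hmem : ∀ z, e z ∈ Icc 1 (Fintype.card Z) := by
    intro z
    rw [he, mem_Icc]
    have := (φ z).2
    simp only
    omega
  have hsurj : ∀ m ∈ Icc 1 (Fintype.card Z), ∃ z, e z = m := by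
    intro m hm
    rw [mem_Icc] at hm
    refine ⟨φ.symm ⟨m - 1, by omega⟩, ?_⟩
    rw [he]
    simp only [Equiv.apply_symm_apply]
    omega
  refine ⟨e, s, hinj, hmem, hsurj, hse, fun p => ?_⟩
  unfold Pool.Agent.H373R2.T7.energy En
  rw [Nat.card_eq_fintype_card, Fintype.card_subtype]
  symm
  apply card_bij (fun q _ => ((fun j => e (q.1 j), fun j => e (q.2 j)) : (Fin p → ℕ) × (Fin p → ℕ)))
  · intro q hq
    rw [mem_filter] at hq
    rw [mem_filter, mem_product, Fintype.mem_piFinset, Fintype.mem_piFinset]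
    refine ⟨⟨fun j => hmem _, fun j => hmem _⟩, ?_⟩
    simp only [hse]
    exact hq.2
  · intro q _ q' _ h
    rw [Prod.mk.injEq] at h
    apply Prod.ext
    · funext j
      exact hinj (congrFun h.1 j)
    · funext j
      exact hinj (congrFun h.2 j)
  · intro q hq
    rw [mem_filter, mem_product, Fintype.mem_piFinset, Fintype.mem_piFinset] at hq
    choose z1 h1 using fun j => hsurj _ (hq.1.1 j)
    choose z2 h2 using fun j => hsurj _ (hq.1.2 j)
    refine ⟨(z1, z2), ?_, ?_⟩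
    · rw [mem_filter]
      refine ⟨mem_univ _, ?_⟩
      have h3 := hq.2
      simp only [← h1, ← h2, hse] at h3
      exact h3
    · apply Prod.ext
      · funext j
        exact h1 j
      · funext j
        exact h2 j

open Classical in
/-- tuples from finite families, fixed translates -/
theorem tuples {f : ℕ → ℂ} (hf : ∀ n, ‖f n‖ ≤ 1) (hsup : SupSmall f) (hev : ∀ z, ‖even f z‖ ≤ 1) (k p B C T U : ℕ) :
    ∃ N0 : ℕ, ∀ N : ℕ, N0 ≤ N → ∀ (Z : Fin (k + 1) → Type) [∀ i, Fintype (Z i)] (v : ∀ i, Z i → ℤ),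
      (∀ i z, |v i z| ≤ B * N) →
      (∀ i, (En p (v i) : ℝ) * N ≤ Real.log N ^ C * (Fintype.card (Z i) : ℝ) ^ (2 * p)) →
      ∀ L : ℕ, (L : ℝ) ≤ Real.log N ^ T →
      ∀ (a : Fin L → Fin (k + 1) → ℕ) (θ : Fin L → ℤ → ℂ), (∀ l i, 1 ≤ a l i) → (∀ l n, ‖θ l n‖ ≤ Real.log N ^ T) →
      ∀ bad : (∀ i, Z i) → Prop, (∀ z, bad z → ∃ l, ∃ J : Finset (Fin (k + 1)), J.Nonempty ∧ ∃ M : ℕ,
        (∀ i, a l i * M ≤ B * N) ∧
        N / Real.log N ^ U < ‖∑ n ∈ Icc 1 M, θ l n * ∏ i ∈ J, even f ((a l i : ℤ) * n + v i (z i))‖) →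
      (((univ : Finset (∀ i, Z i)).filter bad).card : ℝ) ≤ Fintype.card (∀ i, Z i) / Real.log N ^ U := by
  obtain ⟨n1, h1⟩ := Pool.Agent.Q25.TFam.two_fam hf hsup p B C T (U + 1)
  obtain ⟨n2, h2⟩ := Pool.Agent.Q25.TPol.tuples_two f hev k B T U
  refine ⟨n1 + n2, fun N hN Z _ v hv hE L hL a θ ha hθ bad hbad => ?_⟩
  choose e s hinj hmem hsurj hse hen using fun i => reindex (v i)
  obtain ⟨bad', hbad'⟩ : ∃ bad' : (Fin (k + 1) → ℕ) → Prop, bad' = fun m => ∃ z : ∀ i, Z i, (∀ i, e i (z i) = m i) ∧ bad z :=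
    ⟨_, rfl⟩
  have h3 := h2 N (by omega) (fun i => Fintype.card (Z i)) s (fun i => h1 N (by omega) _ _ (by
      intro m hm
      obtain ⟨z, rfl⟩ := hsurj i m hm
      rw [hse]
      exact hv i z) (by rw [hen]; exact hE i)) L hL a θ ha hθ
    bad' (by
      intro m hm
      rw [hbad'] at hm
      obtain ⟨z, hz, hb⟩ := hm
      obtain ⟨l, J, hJ, M, hM, h4⟩ := hbad z hb
      refine ⟨l, J, hJ, M, hM, Or.inl ?_⟩
      simp only [← hz, hse]
      exact h4)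
  have e1 : (Fintype.card (∀ i, Z i) : ℝ) = ∏ i, (Fintype.card (Z i) : ℝ) := by
    rw [Fintype.card_pi]
    push_cast
    rfl
  rw [e1]
  refine le_trans ?_ h3
  rw [Nat.cast_le]
  apply card_le_card_of_injOn (fun z i => e i (z i))
  · intro z hz
    rw [mem_coe, mem_filter] at hz
    rw [mem_coe, mem_filter, Fintype.mem_piFinset, hbad']
    exact ⟨fun i => hmem i _, z, fun i => rfl, hz.2⟩
  · intro z _ z' _ h
    funext i
    exact hinj i (congrFun h i)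

open Classical in
/-- tuples from finite families, windows around the members -/
theorem tuples_win {f : ℕ → ℂ} (hf : ∀ n, ‖f n‖ ≤ 1) (hsup : SupSmall f) (hev : ∀ z, ‖even f z‖ ≤ 1)
    (k p A B C T U : ℕ) :
    ∃ N0 : ℕ, ∀ N : ℕ, N0 ≤ N → ∀ (Z : Fin (k + 1) → Type) [∀ i, Fintype (Z i)] (v : ∀ i, Z i → ℤ),
      (∀ i z, |v i z| ≤ B * N) →
      (∀ i, (En p (v i) : ℝ) * N ≤ Real.log N ^ C * (Fintype.card (Z i) : ℝ) ^ (2 * p)) →
      ∀ L : ℕ, (L : ℝ) ≤ Real.log N ^ T →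
      ∀ (a : Fin L → Fin (k + 1) → ℕ) (θ : Fin L → ℤ → ℂ), (∀ l i, 1 ≤ a l i) → (∀ l n, ‖θ l n‖ ≤ Real.log N ^ T) →
      ∀ bad : (∀ i, Z i) → Prop, (∀ z, bad z → ∃ c : Fin (k + 1) → ℤ, (∀ i, |(c i : ℝ)| ≤ Real.log N ^ A) ∧
        ∃ l, ∃ J : Finset (Fin (k + 1)), J.Nonempty ∧ ∃ M : ℕ, (∀ i, a l i * M ≤ B * N) ∧
        N / Real.log N ^ U < ‖∑ n ∈ Icc 1 M, θ l n * ∏ i ∈ J, even f ((a l i : ℤ) * n + (v i (z i) + c i))‖) →
      (((univ : Finset (∀ i, Z i)).filter bad).card : ℝ) ≤ Fintype.card (∀ i, Z i) / Real.log N ^ U := by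
  obtain ⟨N₀, h0⟩ := tuples hf hsup hev k p (B + 1) C T (U + (A + 1) * (k + 1))
  obtain ⟨N₁, h1⟩ := Pool.Agent.H373R2.T7.ev_L' 3
  obtain ⟨N₂, h2⟩ := Pool.Agent.TH935.LD.log_pow_small A
  refine ⟨N₀ + N₁ + N₂ + 3, fun N hN Z _ v hv hE D hD a θ ha hθ bad hbad => ?_⟩
  have hL3 := h1 N (by omega)
  have hsm := h2 N (by omega)
  have h0' := h0 N (by omega)
  obtain ⟨L, hLd⟩ : ∃ L, L = Real.log (N : ℝ) := ⟨_, rfl⟩
  rw [← hLd] at hL3 hsm hbad hE hD hθ h0' ⊢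
  have hL0 : 0 < L := by linarith
  have hL1 : 1 ≤ L := by linarith
  obtain ⟨W, hW⟩ : ∃ W : ℕ, W = ⌊L ^ A⌋₊ := ⟨_, rfl⟩
  have hWle : (W : ℝ) ≤ L ^ A := by rw [hW]; exact Nat.floor_le (by positivity)
  have hWN : (W : ℝ) ≤ N := by
    have : 0 < L ^ A := by positivity
    linarith
  have hWN' : W ≤ N := by exact_mod_cast hWN
  obtain ⟨Q, hQ⟩ : ∃ Q : (Fin (k + 1) → ℤ) → (∀ i, Z i) → Prop, Q = fun c z => ∃ l, ∃ J : Finset (Fin (k + 1)),
    J.Nonempty ∧ ∃ M : ℕ, (∀ i, a l i * M ≤ B * N) ∧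
        N / L ^ U < ‖∑ n ∈ Icc 1 M, θ l n * ∏ i ∈ J, even f ((a l i : ℤ) * n + (v i (z i) + c i))‖ := ⟨_, rfl⟩
  obtain ⟨S, hS⟩ : ∃ S : Finset (Fin (k + 1) → ℤ), S = Fintype.piFinset fun _ => Icc (-(W : ℤ)) W := ⟨_, rfl⟩
  have hcov : (univ : Finset (∀ i, Z i)).filter bad ⊆ S.biUnion (fun c => univ.filter (Q c)) := by
    intro z hz
    rw [mem_filter] at hz
    obtain ⟨c, hc, h3⟩ := hbad z hz.2
    rw [mem_biUnion]
    refine ⟨c, ?_, ?_⟩
    · rw [hS, Fintype.mem_piFinset]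
      intro i
      have h4 : ((c i).natAbs : ℝ) ≤ L ^ A := by
        rw [Nat.cast_natAbs, Int.cast_abs]
        exact hc i
      have h5 : (c i).natAbs ≤ W := by rw [hW]; exact Nat.le_floor h4
      rw [mem_Icc]
      omega
    · rw [mem_filter, hQ]
      exact ⟨mem_univ _, h3⟩
  have hle : (N : ℝ) / L ^ (U + (A + 1) * (k + 1)) ≤ N / L ^ U :=
    div_le_div_of_nonneg_left (by positivity) (by positivity) (pow_le_pow_right₀ hL1 (by omega))
  have hj : ∀ c ∈ S, (((univ : Finset (∀ i, Z i)).filter (Q c)).card : ℝ) ≤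
      Fintype.card (∀ i, Z i) / L ^ (U + (A + 1) * (k + 1)) := by
    intro c hc
    rw [hS, Fintype.mem_piFinset] at hc
    refine h0' Z (fun i z => v i z + c i) ?_ ?_ D hD a θ ha hθ _ ?_
    · intro i z
      have h4 := hv i z
      have h5 := hc i
      rw [mem_Icc, ← abs_le] at h5
      have h6 : (W : ℤ) ≤ N := by exact_mod_cast hWN'
      calc |v i z + c i| ≤ |v i z| + |c i| := abs_add_le _ _
        _ ≤ B * N + N := by linarith
        _ = _ := by push_cast; ring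
    · intro i
      rw [Pool.Agent.H96.PR.En_shift]
      exact hE i
    · intro z hz
      rw [hQ] at hz
      obtain ⟨l, J, hJ, M, hM, h3⟩ := hz
      refine ⟨l, J, hJ, M, fun i => (hM i).trans (Nat.mul_le_mul_right _ (by omega)), ?_⟩
      exact hle.trans_lt h3
  have hScard : (S.card : ℝ) ≤ L ^ ((A + 1) * (k + 1)) := by
    rw [hS, Fintype.card_piFinset, prod_const, card_univ, Fintype.card_fin, Int.card_Icc]
    have e1 : ((W : ℤ) + 1 - -(W : ℤ)).toNat = 2 * W + 1 := by omega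
    rw [e1]
    push_cast
    have h3 : (2 * (W : ℝ) + 1) ≤ L ^ (A + 1) := by
      have h4 : 1 ≤ L ^ A := one_le_pow₀ hL1
      rw [pow_succ]
      nlinarith
    calc (2 * (W : ℝ) + 1) ^ (k + 1) ≤ (L ^ (A + 1)) ^ (k + 1) := by gcongr
      _ = _ := by rw [← pow_mul]
  calc (((univ : Finset (∀ i, Z i)).filter bad).card : ℝ) ≤ ((S.biUnion (fun c => univ.filter (Q c))).card : ℝ) := by
        exact_mod_cast card_le_card hcov
    _ ≤ ∑ c ∈ S, (((univ : Finset (∀ i, Z i)).filter (Q c)).card : ℝ) := by exact_mod_cast card_biUnion_le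
    _ ≤ ∑ _c ∈ S, (Fintype.card (∀ i, Z i) / L ^ (U + (A + 1) * (k + 1)) : ℝ) := sum_le_sum hj
    _ = S.card * (Fintype.card (∀ i, Z i) / L ^ (U + (A + 1) * (k + 1)) : ℝ) := by rw [sum_const, nsmul_eq_mul]
    _ ≤ L ^ ((A + 1) * (k + 1)) * (Fintype.card (∀ i, Z i) / L ^ (U + (A + 1) * (k + 1)) : ℝ) := by gcongr
    _ = _ := by
        rw [pow_add]
        field_simp

end Pool.Agent.H96.LM
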