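import Pool.Agent.H96.PR.H

set_option autoImplicit false

/-! Families of small energy at the scale `N / q`, for every `q`: perturbed products, polynomials. -/

namespace Pool.Agent.H96.LM

open Finset
open Pool.Agent.TH935.GF (En)
open Pool.Agent.H373R2.T7 (ev_L')

/-- perturbed products at the scale `N / q`, for all `q` -/
theorem energy_scale (k C₀ B₀ h : ℕ) (δ : ℝ) (hδ : 0 < δ) :
    ∃ H C' N₀ : ℕ, 1 ≤ H ∧ ∀ N : ℕ, N₀ ≤ N → ∀ q : ℕ,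
    ∀ (X : Fin (k + 2) → Type) [∀ i, Fintype (X i)] (a : ∀ i, X i → ℤ) (M : Fin (k + 2) → ℕ) (f : Fin (k + 2) → (∀ i, X i) → ℤ),
    (∀ i, (N : ℝ) ^ δ ≤ M i ∧ M i ≤ N ^ B₀) → (∀ i z, |a i z| ≤ M i) →
    (∀ i, (En h (a i) : ℝ) * M i ≤ Real.log N ^ C₀ * (Fintype.card (X i) : ℝ) ^ (2 * h)) →
    (N : ℝ) ≤ Real.log N ^ C₀ * q * ∏ i, (M i : ℝ) →
    (∀ s z z', (∀ t, t ≠ s → z t = z' t) → f s z = f s z') →
    (En H (fun z : ∀ i, X i => ∏ i, a i (z i) + ∑ s, f s z) : ℝ) * N ≤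
      Real.log N ^ C' * q * (Fintype.card (∀ i, X i) : ℝ) ^ (2 * H) := by
  obtain ⟨W, hW⟩ : ∃ W : ℕ, W = B₀ * (k + 2) + 1 := ⟨_, rfl⟩
  have hW0 : (0 : ℝ) < W := by exact_mod_cast (by omega : 0 < W)
  obtain ⟨H, C', N₁, hH, h1⟩ := Pool.Agent.H96.PR.energy_main0 h k (C₀ + 1) 1 (δ / W) (by positivity)
  obtain ⟨N₂, h2⟩ := ev_L' (1 / δ * ((1 / δ) ^ C₀) + 1 / δ * Real.log (N₁ + 1 : ℕ) + W ^ C' + 2)
  refine ⟨H, C₀ + C' + 1, N₂ + 3, hH, fun N hN q X _ a M f hM ha hE hNM hf => ?_⟩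
  have hL := h2 N (by omega)
  have hN1 : 1 ≤ N := by omega
  have hN0 : (0 : ℝ) < N := by exact_mod_cast hN1
  have hN1r : (1 : ℝ) ≤ N := by exact_mod_cast hN1
  obtain ⟨L, hLd⟩ : ∃ L, L = Real.log (N : ℝ) := ⟨_, rfl⟩
  have hp1 : 0 ≤ 1 / δ * ((1 / δ) ^ C₀) := by positivity
  have hp2 : 0 ≤ 1 / δ * Real.log (N₁ + 1 : ℕ) := by
    apply mul_nonneg (by positivity)
    apply Real.log_nonneg
    push_cast
    linarith [(Nat.cast_nonneg N₁ : (0 : ℝ) ≤ N₁)]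
  have hp3 : (0 : ℝ) ≤ (W : ℝ) ^ C' := by positivity
  rw [← hLd] at hL
  have hL0 : 0 < L := by linarith
  have hM1 : ∀ i, 1 ≤ M i := by
    intro i
    have h3 : (1 : ℝ) ≤ M i := (Real.one_le_rpow hN1r hδ.le).trans (hM i).1
    exact_mod_cast h3
  obtain ⟨P, hP⟩ : ∃ P : ℕ, P = ∏ i, M i := ⟨_, rfl⟩
  have hPr : (P : ℝ) = ∏ i, (M i : ℝ) := by rw [hP]; push_cast; rfl
  have hMP : ∀ i, M i ≤ P := by
    intro i
    rw [hP, ← mul_prod_erase univ _ (mem_univ i)]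
    apply Nat.le_mul_of_pos_right
    exact prod_pos fun j _ => hM1 j
  have hP1 : 1 ≤ P := (hM1 0).trans (hMP 0)
  have hP0 : (0 : ℝ) < P := by exact_mod_cast hP1
  have hPhi : P ≤ N ^ W := by
    calc P ≤ ∏ _i : Fin (k + 2), N ^ B₀ := by rw [hP]; exact prod_le_prod' fun i _ => (hM i).2
      _ = N ^ (B₀ * (k + 2)) := by rw [prod_const, card_univ, Fintype.card_fin, ← pow_mul]
      _ ≤ N ^ W := Nat.pow_le_pow_right hN1 (by omega)
  have hPlo : (N : ℝ) ^ δ ≤ P := (hM 0).1.trans (by exact_mod_cast hMP 0)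
  obtain ⟨LP, hLP⟩ : ∃ LP, LP = Real.log (P : ℝ) := ⟨_, rfl⟩
  have hLP1 : δ * L ≤ LP := by
    rw [hLd, hLP, ← Real.log_rpow hN0]
    exact Real.log_le_log (Real.rpow_pos_of_pos hN0 _) hPlo
  have hLP2 : LP ≤ W * L := by
    rw [hLd, hLP, ← Real.log_pow]
    exact Real.log_le_log hP0 (by exact_mod_cast hPhi)
  have hLP1' : L ≤ 1 / δ * LP := by
    rw [div_mul_eq_mul_div, one_mul, le_div_iff₀ hδ]
    linarith
  have hLP3 : (1 / δ) ^ C₀ ≤ LP := by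
    calc (1 / δ) ^ C₀ = δ * (1 / δ * ((1 / δ) ^ C₀)) := by field_simp
      _ ≤ δ * L := mul_le_mul_of_nonneg_left (by linarith) hδ.le
      _ ≤ LP := hLP1
  have hLP0 : 0 < LP := (by positivity : 0 < δ * L).trans_le hLP1
  have hPN : N₁ ≤ P := by
    have h3 : Real.log (N₁ + 1 : ℕ) ≤ Real.log (P : ℝ) := by
      rw [← hLP]
      calc Real.log (N₁ + 1 : ℕ) = δ * (1 / δ * Real.log (N₁ + 1 : ℕ)) := by field_simp
        _ ≤ δ * L := mul_le_mul_of_nonneg_left (by linarith) hδ.le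
        _ ≤ LP := hLP1
    have h4 := (Real.log_le_log_iff (by positivity) hP0).1 h3
    have h5 : N₁ + 1 ≤ P := by exact_mod_cast h4
    omega
  have hpow : L ^ C₀ ≤ LP ^ (C₀ + 1) := by
    calc L ^ C₀ ≤ (1 / δ * LP) ^ C₀ := pow_le_pow_left₀ hL0.le hLP1' _
      _ = (1 / δ) ^ C₀ * LP ^ C₀ := mul_pow _ _ _
      _ ≤ LP * LP ^ C₀ := mul_le_mul_of_nonneg_right hLP3 (by positivity)
      _ = _ := by ring
  have hLP4 : 1 ≤ LP ^ (C₀ + 1) := by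
    refine le_trans ?_ hpow
    exact one_le_pow₀ (by linarith)
  have key := h1 P hPN X a M f ?_ ha ?_ ?_ hf
  · rw [← hLP] at key
    rw [← hLd] at hNM ⊢
    rw [← hPr] at hNM
    have e1 : LP ^ C' ≤ L ^ (C' + 1) := by
      calc LP ^ C' ≤ (W * L) ^ C' := pow_le_pow_left₀ hLP0.le hLP2 _
        _ = (W : ℝ) ^ C' * L ^ C' := mul_pow _ _ _
        _ ≤ L * L ^ C' := mul_le_mul_of_nonneg_right (by linarith) (by positivity)
        _ = _ := by ring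
    calc (En H (fun z : ∀ i, X i => ∏ i, a i (z i) + ∑ s, f s z) : ℝ) * N ≤
          En H (fun z : ∀ i, X i => ∏ i, a i (z i) + ∑ s, f s z) * (L ^ C₀ * q * P) := by gcongr
      _ = L ^ C₀ * q * (En H (fun z : ∀ i, X i => ∏ i, a i (z i) + ∑ s, f s z) * P) := by ring
      _ ≤ L ^ C₀ * q * (LP ^ C' * (Fintype.card (∀ i, X i) : ℝ) ^ (2 * H)) := by gcongr
      _ ≤ L ^ C₀ * q * (L ^ (C' + 1) * (Fintype.card (∀ i, X i) : ℝ) ^ (2 * H)) := by gcongr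
      _ = _ := by ring
  · intro i
    refine ⟨?_, by rw [pow_one]; exact hMP i⟩
    refine le_trans ?_ (hM i).1
    calc (P : ℝ) ^ (δ / W) ≤ ((N : ℝ) ^ W) ^ (δ / W) := by
          apply Real.rpow_le_rpow hP0.le _ (by positivity)
          exact_mod_cast hPhi
      _ = (N : ℝ) ^ δ := by
          rw [← Real.rpow_natCast, ← Real.rpow_mul hN0.le]
          congr 1
          field_simp
  · intro i
    refine (hE i).trans ?_
    rw [← hLP, ← hLd]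
    gcongr
  · rw [← hLP, ← hPr]
    calc (P : ℝ) = 1 * P := by rw [one_mul]
      _ ≤ _ := mul_le_mul_of_nonneg_right hLP4 hP0.le

/-- polynomials at the scale `N / q` -/
theorem energy_poly_scale (C₀ : ℕ) (g : Polynomial ℤ) (hg : 1 ≤ g.natDegree) :
    ∃ H C' N₀ : ℕ, ∀ N : ℕ, N₀ ≤ N → ∀ q : ℕ, ∀ (Y : ℕ) (D : Finset ℕ), D ⊆ Icc 1 Y →
      (Y : ℝ) ≤ Real.log N ^ C₀ * D.card → (N : ℝ) ≤ Real.log N ^ C₀ * q * (Y : ℝ) ^ g.natDegree →
      (En H (fun n : {n // n ∈ D} => g.eval ((n : ℕ) : ℤ)) : ℝ) * N ≤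
        Real.log N ^ C' * q * (Fintype.card {n // n ∈ D} : ℝ) ^ (2 * H) := by
  obtain ⟨p, c, hc, hp⟩ := Pool.Agent.TH823.Fam.energy_poly' g hg
  obtain ⟨x₁, h3⟩ := ev_L' (c + 1)
  refine ⟨p, C₀ + C₀ * (2 * p) + 1, x₁ + 1, fun x hx m Y D hD hYD hx2 => ?_⟩
  have hL := h3 x (by omega)
  have hx0 : (0 : ℝ) < x := by exact_mod_cast (by omega : 0 < x)
  obtain ⟨l, hl⟩ : ∃ l, l = Real.log (x : ℝ) := ⟨_, rfl⟩
  rw [← hl] at hL hYD hx2 ⊢
  have hl0 : 0 < l := by linarith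
  have h5 : (En p (fun n : {n // n ∈ D} => g.eval ((n : ℕ) : ℤ)) : ℝ) ≤
      Pool.Agent.H373R2.T7.energy p Y (fun n => g.eval (n : ℤ)) := by
    exact_mod_cast Pool.Agent.H96.PR.energy_sub p Y (fun n => g.eval (n : ℤ)) D hD
  have hY : 1 ≤ Y := by
    by_contra hcon
    have : Y = 0 := by omega
    subst this
    rw [Nat.cast_zero, zero_pow (by omega), mul_zero] at hx2
    linarith
  have h7 := hp Y hY 0
  simp only [zero_add] at h7
  have hY0 : (0 : ℝ) ≤ Y := Nat.cast_nonneg _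
  rw [Fintype.card_coe]
  calc (En p (fun n : {n // n ∈ D} => g.eval ((n : ℕ) : ℤ)) : ℝ) * x ≤
        Pool.Agent.H373R2.T7.energy p Y (fun n => g.eval (n : ℤ)) * (l ^ C₀ * m * (Y : ℝ) ^ g.natDegree) := by
        exact mul_le_mul h5 hx2 hx0.le (Nat.cast_nonneg _)
    _ = l ^ C₀ * m * (Pool.Agent.H373R2.T7.energy p Y (fun n => g.eval (n : ℤ)) * (Y : ℝ) ^ g.natDegree) := by ring
    _ ≤ l ^ C₀ * m * (c * (Y : ℝ) ^ (2 * p)) := by gcongr
    _ ≤ l ^ C₀ * m * (l * (l ^ C₀ * D.card) ^ (2 * p)) := by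
        have : c ≤ l := by linarith
        gcongr
    _ = _ := by
        rw [mul_pow, ← pow_mul]
        ring

end Pool.Agent.H96.LM
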