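import Pool.Agent.H96.LM.A
import Pool.Agent.H96.EM.C
import Pool.Graph.R_seed8.Y883.T4.Main
import Pool.Graph.R_seed8.Y883.T4.FMmu

set_option autoImplicit false

/-! Families of small energy in residue classes, for the Liouville function. -/

namespace Pool.Agent.H96.LM
open Finset
open Pool.Agent.TH935.GF (En)
open Pool.Agent.H373R2.T7 (liR fz exI ev_L' energy)
open Pool.Agent.R460.GP (cvd)
open Pool.Agent.Y883.T4 (BadF liou liou_cast FM fm_liou mainW)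
open Pool.Agent.H96.EM (fam_cvd)

lemma sum_three (g : ℕ → ℝ) (a b : ℕ) : ∑ m ∈ Icc 1 (a + b), g m = ∑ m ∈ Icc 1 a, g m + ∑ m ∈ Icc 1 b, g (a + m) := by
  induction b with
  | zero => simp
  | succ b ih =>
    rw [← add_assoc, sum_Icc_succ_top (by omega), sum_Icc_succ_top (by omega), ih, add_assoc, add_assoc]

lemma cvd_fz (f G : ℕ → ℂ) (M y : ℕ) (n : ℤ) :
    cvd f (fun a => (starRingEnd ℂ) (G a)) M y n = ∑ a ∈ Icc 1 y, G a * fz f M ((a : ℤ) + n) := by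
  unfold cvd
  rw [sum_comm]
  apply sum_congr rfl
  intro a _
  simp only [Complex.conj_conj]
  unfold fz
  by_cases h : 1 ≤ (a : ℤ) + n ∧ (a : ℤ) + n ≤ M
  · rw [if_pos h]
    obtain ⟨b, hb⟩ : ∃ b : ℕ, b = ((a : ℤ) + n).toNat := ⟨_, rfl⟩
    have hb1 : (b : ℤ) = (a : ℤ) + n := by rw [hb]; exact Int.toNat_of_nonneg (by omega)
    rw [← hb]
    have h2 : ∀ b' ∈ Icc 1 M, (if (b' : ℤ) - a = n then f b' * G a else 0) = if b' = b then G a * f b else 0 := by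
      intro b' _
      by_cases h3 : b' = b
      · rw [if_pos h3, if_pos (by rw [h3]; omega), h3, mul_comm]
      · rw [if_neg h3, if_neg (by omega)]
    rw [sum_congr rfl h2, sum_ite_eq' (Icc 1 M) b, if_pos (by rw [mem_Icc]; omega)]
  · rw [if_neg h, mul_zero]
    apply sum_eq_zero
    intro b' hb'
    rw [mem_Icc] at hb'
    rw [if_neg]
    intro h3
    apply h
    omega

lemma liou_norm (n : ℕ) : ‖((liou n : ℝ) : ℂ)‖ ≤ 1 := by
  rw [Complex.norm_real]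
  unfold liou
  rw [norm_pow, norm_neg, norm_one, one_pow]

lemma fz_norm (M : ℕ) (k : ℤ) : ‖fz (fun k => ((liou k : ℝ) : ℂ)) M k‖ ≤ 1 := by
  unfold fz
  split_ifs
  · exact liou_norm _
  · rw [norm_zero]
    exact zero_le_one

/-- the mean square over a residue class -/
lemma class_ms (M A q : ℕ) (hq : 1 ≤ q) (hqM : 4 * q ≤ M) (hbad : ¬ BadF liou M A q) (c : ℤ) (G : ℕ → ℂ) (hG : ∀ a, ‖G a‖ ≤ 1)
    (y : ℕ) (hy : y ≤ M) :
    ∑ n ∈ (Icc (-(M : ℤ)) M).filter (fun n : ℤ => (n : ZMod q) = (c : ZMod q)),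
      ‖cvd (fun k => ((liou k : ℝ) : ℂ)) (fun a => (starRingEnd ℂ) (G a)) M y n‖ ^ 2 ≤
      3 * ((M : ℝ) ^ 3 / (q * Real.log M ^ A)) := by
  classical
  have hM1 : 1 ≤ M := by omega
  have hM0 : (0 : ℝ) < M := by exact_mod_cast hM1
  have hq0 : (q : ℤ) ≠ 0 := by exact_mod_cast (by omega : q ≠ 0)
  have hq1 : (0 : ℤ) < q := by exact_mod_cast hq
  obtain ⟨g, hg⟩ : ∃ g : ℤ → ℝ, g = fun n => ‖∑ a ∈ Icc 1 y, G a * fz (fun k => ((liou k : ℝ) : ℂ)) M ((a : ℤ) + n)‖ := ⟨_, rfl⟩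
  have hg0 : ∀ n, 0 ≤ g n := fun n => by rw [hg]; exact norm_nonneg _
  have hgM : ∀ n, g n ≤ M := by
    intro n
    rw [hg]
    refine (norm_sum_le _ _).trans ?_
    calc ∑ a ∈ Icc 1 y, ‖G a * fz (fun k => ((liou k : ℝ) : ℂ)) M ((a : ℤ) + n)‖ ≤ ∑ _a ∈ Icc 1 y, (1 : ℝ) := by
          apply sum_le_sum
          intro a _
          rw [norm_mul]
          exact mul_le_one₀ (hG a) (norm_nonneg _) (fz_norm _ _)
      _ = y := by rw [sum_const, Nat.card_Icc, nsmul_eq_mul, mul_one, Nat.add_sub_cancel]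
      _ ≤ M := by exact_mod_cast hy
  have hwin : ∀ c0 : ℤ, -(2 * (M : ℤ)) ≤ c0 → c0 ≤ M → ∑ m ∈ Icc 1 (M / q), g ((q : ℤ) * m + c0) ≤
      (M : ℝ) ^ 2 / (q * Real.log M ^ A) := by
    intro c0 h1 h2
    unfold BadF at hbad
    push Not at hbad
    have := hbad G y c0 hG hy h1 h2
    rw [hg]
    exact this
  -- the representative of the class
  obtain ⟨c1, hc1⟩ : ∃ c1 : ℤ, c1 = (c - (-(M : ℤ) - q)) % q + (-(M : ℤ) - q) := ⟨_, rfl⟩
  have hr0 : 0 ≤ (c - (-(M : ℤ) - q)) % q := Int.emod_nonneg _ hq0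
  have hr1 : (c - (-(M : ℤ) - q)) % q < q := Int.emod_lt_of_pos _ hq1
  have hcc : (q : ℤ) ∣ c - c1 := by
    rw [hc1]
    have : c - ((c - (-(M : ℤ) - q)) % q + (-(M : ℤ) - q)) = (c - (-(M : ℤ) - q)) - (c - (-(M : ℤ) - q)) % q := by ring
    rw [this]
    exact Int.dvd_self_sub_emod
  obtain ⟨K, hK⟩ : ∃ K, K = M / q := ⟨_, rfl⟩
  have hKq1 : q * K ≤ M := by rw [hK]; exact Nat.mul_div_le _ _
  have hKq2 : M < q * (K + 1) := by rw [hK]; exact Nat.lt_mul_div_succ M (by omega)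
  have hKq1' : (q : ℤ) * K ≤ M := by exact_mod_cast hKq1
  have hKq2' : (M : ℤ) < q * (K + 1) := by exact_mod_cast hKq2
  have hqM' : 4 * (q : ℤ) ≤ M := by exact_mod_cast hqM
  have hsq : ∀ n : ℤ, ‖cvd (fun k => ((liou k : ℝ) : ℂ)) (fun a => (starRingEnd ℂ) (G a)) M y n‖ ^ 2 ≤ M * g n := by
    intro n
    rw [cvd_fz]
    have h1 := hgM n
    have h2 := hg0 n
    rw [hg] at h1 h2 ⊢
    simp only at h1 h2 ⊢
    rw [sq]
    exact mul_le_mul_of_nonneg_right h1 h2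
  have hsub : (Icc (-(M : ℤ)) M).filter (fun n : ℤ => (n : ZMod q) = (c : ZMod q)) ⊆
      (Icc 1 (K + (K + K))).image (fun m : ℕ => (q : ℤ) * m + c1) := by
    intro n hn
    rw [mem_filter, mem_Icc] at hn
    obtain ⟨⟨h1, h2⟩, h3⟩ := hn
    have h4 : (q : ℤ) ∣ n - c1 := by
      have h5 : (q : ℤ) ∣ n - c := by
        rw [← ZMod.intCast_zmod_eq_zero_iff_dvd]
        push_cast
        rw [h3, sub_self]
      have := dvd_add h5 hcc
      have e : n - c + (c - c1) = n - c1 := by ring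
      rwa [e] at this
    obtain ⟨t, ht⟩ := h4
    have ht1 : 0 < t := by
      by_contra hcon
      push Not at hcon
      have : (q : ℤ) * t ≤ 0 := mul_nonpos_of_nonneg_of_nonpos hq1.le hcon
      omega
    have ht2 : t ≤ 3 * K := by
      by_contra hcon
      push Not at hcon
      have h5 : (q : ℤ) * (3 * K + 1) ≤ q * t := mul_le_mul_of_nonneg_left (by omega) hq1.le
      have h6 : (q : ℤ) * (3 * K + 1) = 3 * (q * (K + 1)) - 2 * q := by ring
      omega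
    rw [mem_image]
    refine ⟨t.toNat, ?_, ?_⟩
    · rw [mem_Icc]
      omega
    · rw [Int.toNat_of_nonneg ht1.le]
      linarith
  calc ∑ n ∈ (Icc (-(M : ℤ)) M).filter (fun n : ℤ => (n : ZMod q) = (c : ZMod q)),
      ‖cvd (fun k => ((liou k : ℝ) : ℂ)) (fun a => (starRingEnd ℂ) (G a)) M y n‖ ^ 2 ≤
        ∑ n ∈ (Icc (-(M : ℤ)) M).filter (fun n : ℤ => (n : ZMod q) = (c : ZMod q)), M * g n := sum_le_sum fun n _ => hsq n
    _ ≤ ∑ n ∈ (Icc 1 (K + (K + K))).image (fun m : ℕ => (q : ℤ) * m + c1), M * g n :=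
        sum_le_sum_of_subset_of_nonneg hsub fun n _ _ => mul_nonneg hM0.le (hg0 n)
    _ = M * ∑ m ∈ Icc 1 (K + (K + K)), g ((q : ℤ) * m + c1) := by
        rw [sum_image, mul_sum]
        intro m _ m' _ h
        have h1 : (q : ℤ) * m + c1 = (q : ℤ) * m' + c1 := h
        have h2 : (q : ℤ) * m = (q : ℤ) * m' := by linarith
        have h3 := mul_left_cancel₀ hq0 h2
        exact_mod_cast h3
    _ = M * (∑ m ∈ Icc 1 K, g ((q : ℤ) * m + c1) + (∑ m ∈ Icc 1 K, g ((q : ℤ) * m + (q * K + c1)) +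
          ∑ m ∈ Icc 1 K, g ((q : ℤ) * m + (q * K + (q * K + c1))))) := by
        rw [sum_three (fun m => g ((q : ℤ) * m + c1)), sum_three (fun m => g ((q : ℤ) * ((K + m : ℕ) : ℤ) + c1))]
        congr 1
        congr 1
        congr 1
        · apply sum_congr rfl
          intro m _
          congr 1
          push_cast
          ring
        · apply sum_congr rfl
          intro m _
          congr 1
          push_cast
          ring
    _ ≤ M * ((M : ℝ) ^ 2 / (q * Real.log M ^ A) + ((M : ℝ) ^ 2 / (q * Real.log M ^ A) + (M : ℝ) ^ 2 / (q * Real.log M ^ A))) := by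
        have e1 := hwin c1 (by omega) (by omega)
        have e2 := hwin (q * K + c1) (by nlinarith) (by omega)
        have e3 := hwin (q * K + (q * K + c1)) (by nlinarith) (by omega)
        rw [← hK] at e1 e2 e3
        gcongr
    _ = _ := by ring

/-- the first moment over a family in a residue class -/
theorem moment (p B C U : ℕ) (hp : 1 ≤ p) : ∃ A₁ N₀ : ℕ, ∀ N : ℕ, N₀ ≤ N → ∀ q : ℕ, 1 ≤ q → q ≤ N →
    ¬ BadF liou ((2 * B + 4) * N) A₁ q → ∀ c : ℤ, ∀ (x : ℕ) (t : ℕ → ℤ), (∀ m ∈ Icc 1 x, |c + q * t m| ≤ (B + 1) * N) →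
    (energy p x t : ℝ) * N ≤ Real.log N ^ C * q * (x : ℝ) ^ (2 * p) →
    ∀ y : ℕ, y ≤ (B + 1) * N → ∀ G : ℕ → ℂ, (∀ a, ‖G a‖ ≤ 1) →
      ∑ m ∈ Icc 1 x, ‖∑ a ∈ Icc 1 y, G a * fz liR ((2 * B + 4) * N) ((a : ℤ) + (c + q * t m))‖ ≤
        N * x / Real.log N ^ U := by
  classical
  obtain ⟨K, hK⟩ : ∃ K, K = U + 1 := ⟨_, rfl⟩
  obtain ⟨M', hM'⟩ : ∃ M', M' = C + K * (2 * p - 2) + U + 1 := ⟨_, rfl⟩
  obtain ⟨R, hR⟩ : ∃ R : ℕ, R = 2 * B + 4 := ⟨_, rfl⟩
  obtain ⟨N₁, h1⟩ := ev_L' (R + 2 * R ^ 3 + 1)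
  refine ⟨M' + U + 1, N₁ + 3, fun N hN q hq hqN hbad c x t hd hE y hy G hG => ?_⟩
  have hL := h1 N (by omega)
  have hN1 : 1 ≤ N := by omega
  have hN0 : (0 : ℝ) < N := by exact_mod_cast hN1
  obtain ⟨M, hM⟩ : ∃ M, M = (2 * B + 4) * N := ⟨_, rfl⟩
  rw [← hM] at hbad ⊢
  have hMR : (M : ℝ) = R * N := by rw [hM, hR]; push_cast; ring
  have hNM : 4 * N ≤ M := by rw [hM]; nlinarith
  have hyM : y ≤ M := by
    refine hy.trans ?_
    rw [hM]
    exact Nat.mul_le_mul_right _ (by omega)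
  have hq0 : (0 : ℝ) < q := by exact_mod_cast hq
  have hM0 : (0 : ℝ) < M := by exact_mod_cast (by omega : 0 < M)
  obtain ⟨L, hLd⟩ : ∃ L, L = Real.log (N : ℝ) := ⟨_, rfl⟩
  have hLLM : L ≤ Real.log M := by
    rw [hLd]
    exact Real.log_le_log hN0 (by exact_mod_cast (by omega : N ≤ M))
  rw [← hLd] at hL hE ⊢
  have hR0 : (0 : ℝ) ≤ R := Nat.cast_nonneg _
  have hL1 : 1 ≤ L := by nlinarith [pow_nonneg hR0 3]
  have hL0 : 0 < L := by linarith
  rcases Nat.eq_zero_or_pos x with hx | hx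
  · subst hx
    simp
  have hx0 : (0 : ℝ) < x := by exact_mod_cast hx
  have : NeZero q := ⟨by omega⟩
  have hms := class_ms M (M' + U + 1) q hq (by omega) hbad c G hG y hyM
  obtain ⟨lam, hlam⟩ : ∃ lam : ℝ, lam = x / L ^ K := ⟨_, rfl⟩
  obtain ⟨μ, hμ⟩ : ∃ μ : ℝ, μ = x * q * L ^ M' / (N : ℝ) ^ 2 := ⟨_, rfl⟩
  have hlam0 : 0 < lam := by rw [hlam]; positivity
  have hμ0 : 0 < μ := by rw [hμ]; positivity
  have hl2 : ∑ b ∈ Icc 1 M, ‖((liou b : ℝ) : ℂ)‖ ^ 2 ≤ M := by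
    calc ∑ b ∈ Icc 1 M, ‖((liou b : ℝ) : ℂ)‖ ^ 2 ≤ ∑ _b ∈ Icc 1 M, (1 : ℝ) := by
          apply sum_le_sum
          intro b _
          exact pow_le_one₀ (norm_nonneg _) (liou_norm b)
      _ = M := by rw [sum_const, Nat.card_Icc, nsmul_eq_mul, mul_one, Nat.add_sub_cancel]
  have hG2 : ∑ b ∈ Icc 1 M, ‖(starRingEnd ℂ) (G b)‖ ^ 2 ≤ M := by
    calc ∑ b ∈ Icc 1 M, ‖(starRingEnd ℂ) (G b)‖ ^ 2 ≤ ∑ _b ∈ Icc 1 M, (1 : ℝ) := by
          apply sum_le_sum
          intro b _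
          rw [RCLike.norm_conj]
          exact pow_le_one₀ (norm_nonneg _) (hG b)
      _ = M := by rw [sum_const, Nat.card_Icc, nsmul_eq_mul, mul_one, Nat.add_sub_cancel]
  have key := fam_cvd (fun k => ((liou k : ℝ) : ℂ)) (fun a => (starRingEnd ℂ) (G a)) M y M q p hp (c : ZMod q) le_rfl hyM
    M (3 * ((M : ℝ) ^ 3 / (q * Real.log M ^ (M' + U + 1)))) hl2 hG2 hms
    (fun i : (Icc 1 x : Finset ℕ) => c + q * t i) (fun i => by
      have h2 := hd i i.2
      rw [abs_le] at h2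
      have h3 : ((B : ℤ) + 1) * N < M := by
        rw [hM]
        push_cast
        nlinarith
      refine ⟨?_, by linarith [h2.1], by linarith [h2.2]⟩
      push_cast
      rw [ZMod.natCast_self]
      ring) lam μ hlam0 hμ0
  have hen : (En p (fun i : (Icc 1 x : Finset ℕ) => c + q * t i) : ℝ) ≤ energy p x t := by
    have e1 : En p (fun i : (Icc 1 x : Finset ℕ) => c + q * t i) = En p (fun i : (Icc 1 x : Finset ℕ) => t i) := by
      have e2 : (fun i : (Icc 1 x : Finset ℕ) => c + q * t i) = (fun i : (Icc 1 x : Finset ℕ) => (q * t i) + c) := by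
        funext i
        ring
      rw [e2, Pool.Agent.H96.PR.En_shift]
      unfold En
      congr 1
      have hm0 : (q : ℤ) ≠ 0 := by
        exact_mod_cast (by omega : q ≠ 0)
      simp only [← mul_sum, mul_right_inj' hm0]
    rw [e1]
    exact_mod_cast Pool.Agent.H96.PR.energy_sub p x t (Icc 1 x) subset_rfl
  have e0 : ∑ m ∈ Icc 1 x, ‖∑ a ∈ Icc 1 y, G a * fz liR M ((a : ℤ) + (c + q * t m))‖ =
      ∑ i : (Icc 1 x : Finset ℕ), ‖cvd (fun k => ((liou k : ℝ) : ℂ)) (fun a => (starRingEnd ℂ) (G a)) M y (c + q * t i)‖ := by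
    have hfun : (fun k => ((liou k : ℝ) : ℂ)) = liR := funext fun k => liou_cast k
    have e1 : ∀ i : (Icc 1 x : Finset ℕ), ‖cvd (fun k => ((liou k : ℝ) : ℂ)) (fun a => (starRingEnd ℂ) (G a)) M y (c + q * t i)‖ =
        ‖∑ a ∈ Icc 1 y, G a * fz liR M ((a : ℤ) + (c + q * t (i : ℕ)))‖ := by
      intro i
      rw [cvd_fz, hfun]
    rw [sum_congr rfl (fun i _ => e1 i)]
    exact (sum_coe_sort (Icc 1 x) (fun m => ‖∑ a ∈ Icc 1 y, G a * fz liR M ((a : ℤ) + (c + q * t m))‖)).symm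
  rw [e0]
  refine key.trans ?_
  have t1 : lam * M ≤ N * x / L ^ U * (R / L) := by
    rw [hlam, hMR, hK]
    apply le_of_eq
    field_simp
    ring
  have t2 : μ / 2 * (3 * ((M : ℝ) ^ 3 / (q * Real.log M ^ (M' + U + 1)))) ≤ N * x / L ^ U * (2 * R ^ 3 / L) := by
    calc μ / 2 * (3 * ((M : ℝ) ^ 3 / (q * Real.log M ^ (M' + U + 1)))) ≤ μ / 2 * (3 * ((M : ℝ) ^ 3 / (q * L ^ (M' + U + 1)))) := by
          gcongr
      _ = N * x / L ^ U * (3 / 2 * R ^ 3 / L) := by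
          rw [hμ, hMR]
          have e1 : L ^ (M' + U + 1) = L ^ M' * L ^ U * L := by ring
          have e2 : L ^ M' ≠ 0 := by positivity
          have e3 : L ^ U ≠ 0 := by positivity
          rw [e1]
          generalize L ^ M' = P1 at e2 ⊢
          generalize L ^ U = P2 at e3 ⊢
          field_simp
      _ ≤ N * x / L ^ U * (2 * R ^ 3 / L) := by
          have : 0 ≤ (R : ℝ) ^ 3 := by positivity
          gcongr
          linarith
  have t3 : 1 / (2 * μ) * ((En p (fun i : (Icc 1 x : Finset ℕ) => c + q * t i) : ℝ) / lam ^ (2 * p - 2)) ≤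
      N * x / L ^ U * (1 / L) := by
    have g1 : (En p (fun i : (Icc 1 x : Finset ℕ) => c + q * t i) : ℝ) ≤ L ^ C * q * (x : ℝ) ^ (2 * p) / N := by
      rw [le_div_iff₀ hN0]
      exact (mul_le_mul_of_nonneg_right hen hN0.le).trans hE
    have e1 : (x : ℝ) ^ (2 * p) = (x : ℝ) ^ (2 * p - 2) * (x : ℝ) ^ 2 := by rw [← pow_add]; congr 1; omega
    have e2 : lam ^ (2 * p - 2) = (x : ℝ) ^ (2 * p - 2) / L ^ (K * (2 * p - 2)) := by rw [hlam, div_pow, ← pow_mul]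
    have e3 : L ^ M' = L ^ C * L ^ (K * (2 * p - 2)) * L ^ U * L := by rw [hM']; ring
    calc 1 / (2 * μ) * ((En p (fun i : (Icc 1 x : Finset ℕ) => c + q * t i) : ℝ) / lam ^ (2 * p - 2)) ≤
          1 / (2 * μ) * ((L ^ C * q * (x : ℝ) ^ (2 * p) / N) / lam ^ (2 * p - 2)) := by gcongr
      _ = (N * x / L ^ U * (1 / L)) * (1 / 2) := by
          rw [e2, hμ, e1, e3]
          have k1 : L ^ (K * (2 * p - 2)) ≠ 0 := by positivity
          have k2 : L ^ C ≠ 0 := by positivity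
          have k3 : (x : ℝ) ^ (2 * p - 2) ≠ 0 := by positivity
          have k4 : L ^ U ≠ 0 := by positivity
          generalize L ^ (K * (2 * p - 2)) = P1 at k1 ⊢
          generalize L ^ C = P2 at k2 ⊢
          generalize (x : ℝ) ^ (2 * p - 2) = P3 at k3 ⊢
          generalize L ^ U = P4 at k4 ⊢
          field_simp
      _ ≤ _ := by
          have : 0 ≤ N * x / L ^ U * (1 / L) := by positivity
          linarith
  have hW0 : 0 ≤ (N : ℝ) * x / L ^ U := by positivity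
  calc lam * M + μ / 2 * (3 * ((M : ℝ) ^ 3 / (q * Real.log M ^ (M' + U + 1)))) +
        1 / (2 * μ) * ((En p (fun i : (Icc 1 x : Finset ℕ) => c + q * t i) : ℝ) / lam ^ (2 * p - 2)) ≤
        N * x / L ^ U * (R / L) + N * x / L ^ U * (2 * R ^ 3 / L) + N * x / L ^ U * (1 / L) := by linarith
    _ = N * x / L ^ U * ((R + 2 * R ^ 3 + 1) / L) := by ring
    _ ≤ N * x / L ^ U * 1 := by
        apply mul_le_mul_of_nonneg_left _ hW0
        rw [div_le_one hL0]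
        exact hL
    _ = _ := mul_one _

end Pool.Agent.H96.LM
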