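import Pool.Agent.H96.LM.B

set_option autoImplicit false

/-! All the sums over initial segments, for almost all members of a family in a residue class. -/

namespace Pool.Agent.H96.LM
open Finset
open Pool.Agent.TH935.GF (En)
open Pool.Agent.H373R2.T7 (liR fz exI ev_L' energy)
open Pool.Agent.Y883.T4 (BadF liou)
open Pool.Agent.Q25.TFam (AllSmall TwoSided even exI_eq_fz grid)

theorem class_all (p B C T U : ℕ) (hp : 1 ≤ p) : ∃ A₁ N₀ : ℕ, ∀ N : ℕ, N₀ ≤ N → ∀ q : ℕ, 1 ≤ q → q ≤ N →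
    ¬ BadF liou ((2 * B + 4) * N) A₁ q → ∀ c : ℤ, ∀ (x : ℕ) (t : ℕ → ℤ), (∀ m ∈ Icc 1 x, |c + q * t m| ≤ (B + 1) * N) →
    (energy p x t : ℝ) * N ≤ Real.log N ^ C * q * (x : ℝ) ^ (2 * p) → AllSmall liR B T U N x (fun m => c + q * t m) := by
  classical
  have hf : ∀ n, ‖liR n‖ ≤ 1 := Pool.Agent.W93.LM.nice_liR.1
  obtain ⟨Q, hQ⟩ : ∃ Q : ℕ, Q = U + T := ⟨_, rfl⟩
  obtain ⟨U1, hU1⟩ : ∃ U1 : ℕ, U1 = 2 * U + 2 * T + Q + 1 := ⟨_, rfl⟩
  obtain ⟨A₁, n1, h1⟩ := moment p B C U1 hp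
  obtain ⟨n3, h3⟩ := grid B Q
  obtain ⟨n4, h4⟩ := ev_L' (2 * (4 * B + 1))
  refine ⟨A₁, n1 + n3 + n4 + 3, fun N hN q hq hqN hbadq c x t hs hE L hL α θ hα hθ E hEx hbad => ?_⟩
  have hN3 : 3 ≤ N := by omega
  have hNr : (3 : ℝ) ≤ N := by exact_mod_cast hN3
  have hN0 : (0 : ℝ) < N := by linarith
  have hLg := h4 N (by omega)
  push_cast at hLg
  have hmain := h1 N (by omega) q hq hqN hbadq c x t hs hE
  obtain ⟨lg, hlg⟩ : ∃ lg, lg = Real.log (N : ℝ) := ⟨_, rfl⟩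
  obtain ⟨D, hD1, hD2, hD3⟩ := h3 N (by omega)
  rw [← hlg] at hLg hmain hD2 hD3 hL hθ hbad ⊢
  have hB0 : (0 : ℝ) ≤ B := Nat.cast_nonneg _
  have hl1 : 1 ≤ lg := by linarith
  have hl0 : 0 < lg := by linarith
  obtain ⟨H, hH⟩ : ∃ H, H = (2 * B + 4) * N := ⟨_, rfl⟩
  rw [← hH] at hmain
  obtain ⟨s, hsd⟩ : ∃ s : ℕ → ℤ, s = fun m => c + q * t m := ⟨_, rfl⟩
  have hs' : ∀ m ∈ Icc 1 x, |s m| ≤ (B + 1) * N := by
    intro m hm
    rw [hsd]
    exact hs m hm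
  have hmain' : ∀ y : ℕ, y ≤ (B + 1) * N → ∀ G : ℕ → ℂ, (∀ a, ‖G a‖ ≤ 1) →
      ∑ m ∈ Icc 1 x, ‖∑ a ∈ Icc 1 y, G a * fz liR H ((a : ℤ) + s m)‖ ≤ N * x / lg ^ U1 := by
    rw [hsd]
    exact hmain
  have hbad' : ∀ m ∈ E, ∃ l, ∃ X : ℕ, α l * X ≤ B * N ∧
      N / lg ^ U < ‖∑ n ∈ Icc 1 X, θ l n * exI liR (((α l * n : ℕ) : ℤ) + s m)‖ := by
    rw [hsd]
    exact hbad
  -- the weights
  obtain ⟨G, hG⟩ : ∃ G : Fin L → ℕ → ℂ, G = fun l m => if α l ∣ m then θ l (m / α l) else 0 := ⟨_, rfl⟩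
  have hGb : ∀ l, ∀ m ∈ Icc 1 (B * N), ‖G l m‖ ≤ lg ^ T := by
    intro l m hm
    rw [mem_Icc] at hm
    rw [hG]
    simp only
    split_ifs with hdiv
    · obtain ⟨n, rfl⟩ := hdiv
      have hαl := hα l
      rw [Nat.mul_div_cancel_left _ (by omega)]
      apply hθ l n _ hm.2
      by_contra hcon
      have : n = 0 := by omega
      subst this
      omega
    · rw [norm_zero]; positivity
  obtain ⟨J, hJ⟩ : ∃ J, J = B * N / D := ⟨_, rfl⟩
  rw [← hJ] at hD3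
  have hJD : ∀ j ∈ range (J + 1), j * D ≤ B * N := by
    intro j hj
    rw [mem_range] at hj
    calc j * D ≤ J * D := Nat.mul_le_mul_right _ (by omega)
      _ ≤ B * N := by rw [hJ]; exact Nat.div_mul_le_self _ _
  obtain ⟨S, hS⟩ : ∃ S : Fin L → ℕ → ℕ → ℝ, S = fun l j m => ‖∑ a ∈ Icc 1 (j * D), G l a * exI liR ((a : ℤ) + s m)‖ := ⟨_, rfl⟩
  have hS0 : ∀ l j m, 0 ≤ S l j m := by
    intro l j m
    rw [hS]
    exact norm_nonneg _
  have hexfz : ∀ m ∈ Icc 1 x, ∀ a : ℕ, a ≤ B * N → exI liR ((a : ℤ) + s m) = fz liR H ((a : ℤ) + s m) := by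
    intro m hm a ha
    apply exI_eq_fz
    have e1 := (abs_le.1 (hs' m hm)).2
    have e2 : (a : ℤ) ≤ B * N := by exact_mod_cast ha
    rw [hH]
    push_cast
    have e3 : (0 : ℤ) ≤ N := by positivity
    nlinarith
  have hmom : ∀ l, ∀ j ∈ range (J + 1), ∑ m ∈ Icc 1 x, S l j m ≤ lg ^ T * (N * x / lg ^ U1) := by
    intro l j hj
    have e1 := hmain' (j * D) ((hJD j hj).trans (Nat.mul_le_mul_right _ (by omega)))
      (fun a => if a ∈ Icc 1 (B * N) then G l a / (lg ^ T : ℝ) else 0) (by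
      intro a
      split_ifs with ha
      · rw [norm_div, Complex.norm_real, Real.norm_of_nonneg (by positivity), div_le_one (by positivity)]
        exact hGb l a ha
      · rw [norm_zero]; norm_num)
    have e2 : ∑ m ∈ Icc 1 x, S l j m = lg ^ T * ∑ m ∈ Icc 1 x,
        ‖∑ a ∈ Icc 1 (j * D), (if a ∈ Icc 1 (B * N) then G l a / (lg ^ T : ℝ) else 0) * fz liR H ((a : ℤ) + s m)‖ := by
      rw [mul_sum]
      apply sum_congr rfl
      intro m hm
      have hne : ((lg ^ T : ℝ) : ℂ) ≠ 0 := by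
        have : (lg ^ T : ℝ) ≠ 0 := by positivity
        exact_mod_cast this
      have q1 : ∑ a ∈ Icc 1 (j * D), G l a * exI liR ((a : ℤ) + s m) = ((lg ^ T : ℝ) : ℂ) *
          ∑ a ∈ Icc 1 (j * D), (if a ∈ Icc 1 (B * N) then G l a / (lg ^ T : ℝ) else 0) * fz liR H ((a : ℤ) + s m) := by
        rw [mul_sum]
        apply sum_congr rfl
        intro a ha
        rw [mem_Icc] at ha
        have ha2 : a ≤ B * N := ha.2.trans (hJD j hj)
        rw [if_pos (by rw [mem_Icc]; exact ⟨ha.1, ha2⟩), hexfz m hm a ha2, ← mul_assoc, mul_div_cancel₀ _ hne]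
      rw [hS]
      simp only
      rw [q1, norm_mul, Complex.norm_real, Real.norm_of_nonneg (by positivity)]
    rw [e2]
    exact mul_le_mul_of_nonneg_left e1 (by positivity)
  have hpt : ∀ m ∈ E, (N : ℝ) / (2 * lg ^ U) ≤ ∑ l, ∑ j ∈ range (J + 1), S l j m := by
    intro m hm
    obtain ⟨l, X, hX, hb⟩ := hbad' m hm
    have e1 := Pool.Agent.W93.LM.spread (fun a => exI liR ((a : ℤ) + s m)) (θ l) (α l) X (hα l)
    rw [e1] at hb
    have e2 := Pool.Agent.W93.LM.grid_step (fun a => exI liR ((a : ℤ) + s m)) (G l) (α l * X) D hD1 (lg ^ T)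
      (fun a => Pool.Agent.W93.LM.exI_norm liR hf _) (by
        intro a ha
        rw [mem_Icc] at ha
        exact hGb l a (by rw [mem_Icc]; exact ⟨ha.1, ha.2.trans hX⟩)) (by positivity)
    have e3 : ∑ a ∈ Icc 1 (α l * X), (if α l ∣ a then θ l (a / α l) else 0) * exI liR ((a : ℤ) + s m) =
        ∑ a ∈ Icc 1 (α l * X), G l a * exI liR ((a : ℤ) + s m) := by rw [hG]
    rw [e3] at hb
    have hj : α l * X / D ∈ range (J + 1) := by
      rw [mem_range, hJ]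
      have : α l * X / D ≤ B * N / D := Nat.div_le_div_right hX
      omega
    have e4 : S l (α l * X / D) m = ‖∑ a ∈ Icc 1 (α l * X / D * D), G l a * exI liR ((a : ℤ) + s m)‖ := by rw [hS]
    rw [← e4] at e2
    have e5 : lg ^ T * D ≤ N / (2 * lg ^ U) := by
      rw [le_div_iff₀ (by positivity)]
      rw [hQ, pow_add] at hD2
      linarith
    have e6 : (N : ℝ) / lg ^ U = 2 * (N / (2 * lg ^ U)) := by field_simp
    rw [e6] at hb
    have e7 : (N : ℝ) / (2 * lg ^ U) ≤ S l (α l * X / D) m := by linarith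
    have e8 := single_le_sum (f := fun j => S l j m) (fun j _ => hS0 l j m) hj
    have e9 := single_le_sum (f := fun l => ∑ j ∈ range (J + 1), S l j m) (fun l _ => sum_nonneg fun j _ => hS0 l j m) (mem_univ l)
    exact e7.trans (e8.trans e9)
  have hsum : (E.card : ℝ) * (N / (2 * lg ^ U)) ≤ ∑ m ∈ Icc 1 x, ∑ l, ∑ j ∈ range (J + 1), S l j m := by
    rw [← nsmul_eq_mul, ← sum_const]
    refine (sum_le_sum hpt).trans ?_
    exact sum_le_sum_of_subset_of_nonneg hEx (fun m _ _ => sum_nonneg fun l _ => sum_nonneg fun j _ => hS0 l j m)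
  have hsum2 : ∑ m ∈ Icc 1 x, ∑ l, ∑ j ∈ range (J + 1), S l j m ≤ L * ((J + 1 : ℕ) * (lg ^ T * (N * x / lg ^ U1))) := by
    rw [sum_comm]
    have e1 : ∀ l ∈ (univ : Finset (Fin L)), ∑ m ∈ Icc 1 x, ∑ j ∈ range (J + 1), S l j m ≤ (J + 1 : ℕ) * (lg ^ T * (N * x / lg ^ U1)) := by
      intro l _
      rw [sum_comm]
      refine (sum_le_sum (hmom l)).trans (le_of_eq ?_)
      rw [sum_const, card_range, nsmul_eq_mul]
    refine (sum_le_sum e1).trans (le_of_eq ?_)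
    rw [sum_const, card_univ, Fintype.card_fin, nsmul_eq_mul]
  have hJ1 : ((J + 1 : ℕ) : ℝ) ≤ (4 * B + 1) * lg ^ Q := by
    have : (1 : ℝ) ≤ lg ^ Q := one_le_pow₀ hl1
    push_cast
    nlinarith
  have hx0 : (0 : ℝ) ≤ x := Nat.cast_nonneg _
  have hfin : (L : ℝ) * ((J + 1 : ℕ) * (lg ^ T * (N * x / lg ^ U1))) ≤
      lg ^ T * (((4 * B + 1) * lg ^ Q) * (lg ^ T * (N * x / lg ^ U1))) := by
    apply mul_le_mul hL _ (by positivity) (by positivity)
    exact mul_le_mul_of_nonneg_right hJ1 (by positivity)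
  have hfin2 : lg ^ T * (((4 * B + 1) * lg ^ Q) * (lg ^ T * (N * x / lg ^ U1))) ≤ x / lg ^ U * (N / (2 * lg ^ U)) := by
    have e1 : lg ^ U1 = lg ^ U * lg ^ U * (lg ^ T * lg ^ T) * lg ^ Q * lg := by
      rw [hU1]; ring
    rw [e1]
    have e2 : lg ^ T * (((4 * (B : ℝ) + 1) * lg ^ Q) * (lg ^ T * (N * x / (lg ^ U * lg ^ U * (lg ^ T * lg ^ T) * lg ^ Q * lg)))) =
        x / lg ^ U * (N / (2 * lg ^ U)) * (2 * (4 * B + 1) / lg) := by
      field_simp
    rw [e2]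
    apply mul_le_of_le_one_right (by positivity)
    rw [div_le_one hl0]
    exact hLg
  have hlast : (E.card : ℝ) * (N / (2 * lg ^ U)) ≤ x / lg ^ U * (N / (2 * lg ^ U)) :=
    hsum.trans (hsum2.trans (hfin.trans hfin2))
  exact le_of_mul_le_mul_right hlast (by positivity)

/-- **Two-sided sums, families in a residue class.** -/
theorem two_class (p B C T U : ℕ) (hp : 1 ≤ p) : ∃ A₁ N₀ : ℕ, ∀ N : ℕ, N₀ ≤ N → ∀ q : ℕ, 1 ≤ q → q ≤ N →
    ¬ BadF liou ((4 * B + 6) * N) A₁ q → ∀ c : ℤ, ∀ (x : ℕ) (t : ℕ → ℤ), (∀ m ∈ Icc 1 x, |c + q * t m| ≤ B * N) →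
    (energy p x t : ℝ) * N ≤ Real.log N ^ C * q * (x : ℝ) ^ (2 * p) → TwoSided liR B T U N x (fun m => c + q * t m) := by
  obtain ⟨A₁, n1, h1⟩ := class_all p (2 * B + 1) C T (U + 1) hp
  obtain ⟨n2, h2⟩ := Pool.Agent.Q25.TFam.two_sided liR B T U
  refine ⟨A₁, n1 + n2 + 3, fun N hN q hq hqN hbad c x t hs he => ?_⟩
  have hN3 : 3 ≤ N := by omega
  have hNz : (3 : ℤ) ≤ N := by exact_mod_cast hN3
  have hBN : (0 : ℤ) ≤ (B : ℤ) * N := by positivity
  have e0 : (2 * (2 * B + 1) + 4) * N = (4 * B + 6) * N := by ring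
  have hmono : ∀ s', AllSmall liR (2 * B + 1) T (U + 1) N x s' → AllSmall liR B T (U + 1) N x s' :=
    fun s' h => AllSmall.mono h (by omega) hN3 le_rfl
  have key : ∀ (c' : ℤ) (t' : ℕ → ℤ) (s' : ℕ → ℤ), (∀ m, s' m = c' + q * t' m) →
      (∀ m ∈ Icc 1 x, |s' m| ≤ (2 * B + 2) * N) → energy p x t' = energy p x t → AllSmall liR B T (U + 1) N x s' := by
    intro c' t' s' h3 h4 h5
    have h6 : s' = fun m => c' + q * t' m := funext h3
    rw [h6] at h4 ⊢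
    refine hmono _ (h1 N (by omega) q hq hqN (by rw [e0]; exact hbad) c' x t' ?_ (by rw [h5]; exact he))
    intro m hm
    refine (h4 m hm).trans (le_of_eq ?_)
    push_cast
    ring
  refine h2 N (by omega) x _ (key c t _ (fun m => rfl) ?_ rfl)
    (key (-c) (fun m => -t m) _ (fun m => by ring) ?_ (Pool.Agent.Q25.TFam.energy_neg p x t))
    (key (c - (B * N + 1 : ℕ)) t _ (fun m => by ring) ?_ rfl)
    (key (-c - (B * N + 1 : ℕ)) (fun m => -t m) _ (fun m => by ring) ?_ (Pool.Agent.Q25.TFam.energy_neg p x t))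
  all_goals
    intro m hm
    have h3 := abs_le.1 (hs m hm)
    rw [abs_le]
    push_cast
    constructor <;> nlinarith

end Pool.Agent.H96.LM
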