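import Pool.Agent.H96.LM.C

set_option autoImplicit false

/-! Tuples of constant terms from families in residue classes. -/

namespace Pool.Agent.H96.LM
open Finset
open Pool.Agent.TH935.GF (En)
open Pool.Agent.H373R2.T7 (liR ev_L' energy)
open Pool.Agent.Y883.T4 (BadF liou fm_liou mainW)
open Pool.Agent.Q25.TFam (TwoSided even)

lemma even_liR_norm (z : ℤ) : ‖even liR z‖ ≤ 1 := by
  rw [← Pool.Agent.Q25.TPol.lam_eq]
  exact Pool.Agent.Q25.TPol.lam_norm z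

open Classical in
/-- tuples from finite families in residue classes, fixed translates -/
theorem tuples_cls (k p B C T U : ℕ) (hp : 1 ≤ p) :
    ∃ A₁ N₀ : ℕ, ∀ N : ℕ, N₀ ≤ N → ∀ q : Fin (k + 1) → ℕ,
      (∀ i, 1 ≤ q i ∧ q i ≤ N ∧ ¬ BadF liou ((4 * B + 6) * N) A₁ (q i)) → ∀ c : Fin (k + 1) → ℤ,
      ∀ (Z : Fin (k + 1) → Type) [∀ i, Fintype (Z i)] (t : ∀ i, Z i → ℤ),
      (∀ i z, |c i + q i * t i z| ≤ B * N) →
      (∀ i, (En p (t i) : ℝ) * N ≤ Real.log N ^ C * q i * (Fintype.card (Z i) : ℝ) ^ (2 * p)) →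
      ∀ L : ℕ, (L : ℝ) ≤ Real.log N ^ T →
      ∀ (a : Fin L → Fin (k + 1) → ℕ) (θ : Fin L → ℤ → ℂ), (∀ l i, 1 ≤ a l i) → (∀ l n, ‖θ l n‖ ≤ Real.log N ^ T) →
      ∀ bad : (∀ i, Z i) → Prop, (∀ z, bad z → ∃ l, ∃ J : Finset (Fin (k + 1)), J.Nonempty ∧ ∃ M : ℕ,
        (∀ i, a l i * M ≤ B * N) ∧
        N / Real.log N ^ U < ‖∑ n ∈ Icc 1 M, θ l n * ∏ i ∈ J, even liR ((a l i : ℤ) * n + (c i + q i * t i (z i)))‖) →
      (((univ : Finset (∀ i, Z i)).filter bad).card : ℝ) ≤ Fintype.card (∀ i, Z i) / Real.log N ^ U := by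
  obtain ⟨A₁, n1, h1⟩ := two_class p B C T (U + 1) hp
  obtain ⟨n2, h2⟩ := Pool.Agent.Q25.TPol.tuples_two liR even_liR_norm k B T U
  refine ⟨A₁, n1 + n2, fun N hN q hq c Z _ t hv hE L hL a θ ha hθ bad hbad => ?_⟩
  choose e s hinj hmem hsurj hse hen using fun i => reindex (t i)
  obtain ⟨bad', hbad'⟩ : ∃ bad' : (Fin (k + 1) → ℕ) → Prop, bad' = fun m => ∃ z : ∀ i, Z i, (∀ i, e i (z i) = m i) ∧ bad z :=
    ⟨_, rfl⟩
  have h3 := h2 N (by omega) (fun i => Fintype.card (Z i)) (fun i m => c i + q i * s i m)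
    (fun i => h1 N (by omega) (q i) (hq i).1 (hq i).2.1 (hq i).2.2 (c i) _ (s i) (by
      intro m hm
      obtain ⟨z, rfl⟩ := hsurj i m hm
      rw [hse]
      exact hv i z) (by rw [hen]; exact hE i)) L hL a θ ha hθ
    bad' (by
      intro m hm
      rw [hbad'] at hm
      obtain ⟨z, hz, hb⟩ := hm
      obtain ⟨l, J, hJ, M, hM, h4⟩ := hbad z hb
      refine ⟨l, J, hJ, M, hM, Or.inl ?_⟩
      simp only [← hz, hse]
      exact h4)
  have e1 : (Fintype.card (∀ i, Z i) : ℝ) = ∏ i, (Fintype.card (Z i) : ℝ) := by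
    rw [Fintype.card_pi]
    push_cast
    rfl
  rw [e1]
  refine le_trans ?_ h3
  rw [Nat.cast_le]
  apply card_le_card_of_injOn (fun z i => e i (z i))
  · intro z hz
    rw [mem_coe, mem_filter] at hz
    rw [mem_coe, mem_filter, Fintype.mem_piFinset, hbad']
    exact ⟨fun i => hmem i _, z, fun i => rfl, hz.2⟩
  · intro z _ z' _ h
    funext i
    exact hinj i (congrFun h i)

open Classical in
/-- tuples from finite families in residue classes, windows around the members -/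
theorem tuples_win_cls (k p A B C T U : ℕ) (hp : 1 ≤ p) :
    ∃ A₁ N₀ : ℕ, ∀ N : ℕ, N₀ ≤ N → ∀ q : Fin (k + 1) → ℕ,
      (∀ i, 1 ≤ q i ∧ q i ≤ N ∧ ¬ BadF liou ((4 * (B + 1) + 6) * N) A₁ (q i)) → ∀ c : Fin (k + 1) → ℤ,
      ∀ (Z : Fin (k + 1) → Type) [∀ i, Fintype (Z i)] (t : ∀ i, Z i → ℤ),
      (∀ i z, |c i + q i * t i z| ≤ B * N) →
      (∀ i, (En p (t i) : ℝ) * N ≤ Real.log N ^ C * q i * (Fintype.card (Z i) : ℝ) ^ (2 * p)) →
      ∀ L : ℕ, (L : ℝ) ≤ Real.log N ^ T →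
      ∀ (a : Fin L → Fin (k + 1) → ℕ) (θ : Fin L → ℤ → ℂ), (∀ l i, 1 ≤ a l i) → (∀ l n, ‖θ l n‖ ≤ Real.log N ^ T) →
      ∀ bad : (∀ i, Z i) → Prop, (∀ z, bad z → ∃ c' : Fin (k + 1) → ℤ, (∀ i, |(c' i : ℝ)| ≤ Real.log N ^ A) ∧
        ∃ l, ∃ J : Finset (Fin (k + 1)), J.Nonempty ∧ ∃ M : ℕ, (∀ i, a l i * M ≤ B * N) ∧
        N / Real.log N ^ U < ‖∑ n ∈ Icc 1 M, θ l n * ∏ i ∈ J, even liR ((a l i : ℤ) * n + (c i + q i * t i (z i) + c' i))‖) →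
      (((univ : Finset (∀ i, Z i)).filter bad).card : ℝ) ≤ Fintype.card (∀ i, Z i) / Real.log N ^ U := by
  obtain ⟨A₁, N₀, h0⟩ := tuples_cls k p (B + 1) C T (U + (A + 1) * (k + 1)) hp
  obtain ⟨N₁, h1⟩ := ev_L' 3
  obtain ⟨N₂, h2⟩ := Pool.Agent.TH935.LD.log_pow_small A
  refine ⟨A₁, N₀ + N₁ + N₂ + 3, fun N hN q hq c Z _ t hv hE D hD a θ ha hθ bad hbad => ?_⟩
  have hL3 := h1 N (by omega)
  have hsm := h2 N (by omega)
  have h0' := h0 N (by omega)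
  obtain ⟨L, hLd⟩ : ∃ L, L = Real.log (N : ℝ) := ⟨_, rfl⟩
  rw [← hLd] at hL3 hsm hbad hE hD hθ h0' ⊢
  have hL0 : 0 < L := by linarith
  have hL1 : 1 ≤ L := by linarith
  obtain ⟨W, hW⟩ : ∃ W : ℕ, W = ⌊L ^ A⌋₊ := ⟨_, rfl⟩
  have hWle : (W : ℝ) ≤ L ^ A := by rw [hW]; exact Nat.floor_le (by positivity)
  have hWN : (W : ℝ) ≤ N := by
    have : 0 < L ^ A := by positivity
    linarith
  have hWN' : W ≤ N := by exact_mod_cast hWN
  obtain ⟨Q, hQ⟩ : ∃ Q : (Fin (k + 1) → ℤ) → (∀ i, Z i) → Prop, Q = fun c' z => ∃ l, ∃ J : Finset (Fin (k + 1)),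
    J.Nonempty ∧ ∃ M : ℕ, (∀ i, a l i * M ≤ B * N) ∧
        N / L ^ U < ‖∑ n ∈ Icc 1 M, θ l n * ∏ i ∈ J, even liR ((a l i : ℤ) * n + (c i + q i * t i (z i) + c' i))‖ := ⟨_, rfl⟩
  obtain ⟨S, hS⟩ : ∃ S : Finset (Fin (k + 1) → ℤ), S = Fintype.piFinset fun _ => Icc (-(W : ℤ)) W := ⟨_, rfl⟩
  have hcov : (univ : Finset (∀ i, Z i)).filter bad ⊆ S.biUnion (fun c' => univ.filter (Q c')) := by
    intro z hz
    rw [mem_filter] at hz
    obtain ⟨c', hc, h3⟩ := hbad z hz.2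
    rw [mem_biUnion]
    refine ⟨c', ?_, ?_⟩
    · rw [hS, Fintype.mem_piFinset]
      intro i
      have h4 : ((c' i).natAbs : ℝ) ≤ L ^ A := by
        rw [Nat.cast_natAbs, Int.cast_abs]
        exact hc i
      have h5 : (c' i).natAbs ≤ W := by rw [hW]; exact Nat.le_floor h4
      rw [mem_Icc]
      omega
    · rw [mem_filter, hQ]
      exact ⟨mem_univ _, h3⟩
  have hle : (N : ℝ) / L ^ (U + (A + 1) * (k + 1)) ≤ N / L ^ U :=
    div_le_div_of_nonneg_left (by positivity) (by positivity) (pow_le_pow_right₀ hL1 (by omega))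
  have hj : ∀ c' ∈ S, (((univ : Finset (∀ i, Z i)).filter (Q c')).card : ℝ) ≤
      Fintype.card (∀ i, Z i) / L ^ (U + (A + 1) * (k + 1)) := by
    intro c' hc
    rw [hS, Fintype.mem_piFinset] at hc
    have e1 : ∀ i (z : Z i), c i + q i * t i z + c' i = (c i + c' i) + q i * t i z := fun i z => by ring
    refine h0' q hq (fun i => c i + c' i) Z t ?_ hE D hD a θ ha hθ _ ?_
    · intro i z
      have h4 := hv i z
      have h5 := hc i
      rw [mem_Icc, ← abs_le] at h5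
      have h6 : (W : ℤ) ≤ N := by exact_mod_cast hWN'
      calc |(c i + c' i) + q i * t i z| = |(c i + q i * t i z) + c' i| := by rw [e1]
        _ ≤ |c i + q i * t i z| + |c' i| := abs_add_le _ _
        _ ≤ B * N + N := by linarith
        _ = _ := by push_cast; ring
    · intro z hz
      rw [hQ] at hz
      obtain ⟨l, J, hJ, M, hM, h3⟩ := hz
      simp only [e1] at h3
      refine ⟨l, J, hJ, M, fun i => (hM i).trans (Nat.mul_le_mul_right _ (by omega)), ?_⟩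
      exact hle.trans_lt h3
  have hScard : (S.card : ℝ) ≤ L ^ ((A + 1) * (k + 1)) := by
    rw [hS, Fintype.card_piFinset, prod_const, card_univ, Fintype.card_fin, Int.card_Icc]
    have e1 : ((W : ℤ) + 1 - -(W : ℤ)).toNat = 2 * W + 1 := by omega
    rw [e1]
    push_cast
    have h3 : (2 * (W : ℝ) + 1) ≤ L ^ (A + 1) := by
      have h4 : 1 ≤ L ^ A := one_le_pow₀ hL1
      rw [pow_succ]
      nlinarith
    calc (2 * (W : ℝ) + 1) ^ (k + 1) ≤ (L ^ (A + 1)) ^ (k + 1) := by gcongr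
      _ = _ := by rw [← pow_mul]
  calc (((univ : Finset (∀ i, Z i)).filter bad).card : ℝ) ≤ ((S.biUnion (fun c' => univ.filter (Q c'))).card : ℝ) := by
        exact_mod_cast card_le_card hcov
    _ ≤ ∑ c' ∈ S, (((univ : Finset (∀ i, Z i)).filter (Q c')).card : ℝ) := by exact_mod_cast card_biUnion_le
    _ ≤ ∑ _c ∈ S, (Fintype.card (∀ i, Z i) / L ^ (U + (A + 1) * (k + 1)) : ℝ) := sum_le_sum hj
    _ = S.card * (Fintype.card (∀ i, Z i) / L ^ (U + (A + 1) * (k + 1)) : ℝ) := by rw [sum_const, nsmul_eq_mul]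
    _ ≤ L ^ ((A + 1) * (k + 1)) * (Fintype.card (∀ i, Z i) / L ^ (U + (A + 1) * (k + 1)) : ℝ) := by gcongr
    _ = _ := by
        rw [pow_add]
        field_simp

/-- the good moduli -/
theorem moduli (R A A₁ : ℕ) (hR : 1 ≤ R) (ρ : ℝ) (hρ : 0 < ρ) : ∃ c N₀ : ℕ, ∀ N : ℕ, N₀ ≤ N → ∃ D : Finset ℕ,
    (∀ d ∈ D, Real.log N ^ A < (d : ℝ)) ∧
    (∀ X : ℝ, 1 ≤ X → ((D.filter (fun d : ℕ => (d : ℝ) ≤ X)).card : ℝ) ≤ X ^ ρ) ∧
    (∀ q : ℕ, 1 ≤ q → (q : ℝ) ≤ (N : ℝ) ^ (2 / 3 - ρ) → (∀ d ∈ D, ¬ d ∣ q) → ¬ BadF liou (R * N) A₁ q) ∧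
    ∀ X : ℕ, X ≤ N → ∀ F : Finset ℕ, (∀ q ∈ F, 1 ≤ q ∧ q ≤ X ∧ (∀ d ∈ D, ¬ d ∣ q) ∧ BadF liou (R * N) A₁ q) →
      (F.card : ℝ) * N ≤ (X : ℝ) ^ 2 * Real.log N ^ c := by
  classical
  obtain ⟨ρ', hρ'⟩ : ∃ ρ' : ℝ, ρ' = min ρ (1 / 3) := ⟨_, rfl⟩
  have hρ0 : 0 < ρ' := by rw [hρ']; exact lt_min hρ (by norm_num)
  have hρ1 : ρ' ≤ ρ := by rw [hρ']; exact min_le_left _ _
  have hρ2 : ρ' ≤ 1 / 3 := by rw [hρ']; exact min_le_right _ _
  obtain ⟨A₂, hA₂⟩ : ∃ A₂, A₂ = A + A₁ := ⟨_, rfl⟩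
  obtain ⟨c₁, U₁, N₁, h1⟩ := mainW ρ' hρ0 A₂
  obtain ⟨N₂, h2⟩ := fm_liou U₁
  obtain ⟨N₃, h3⟩ := ev_L' (Real.log R + 2 ^ c₁ + 3)
  refine ⟨c₁ + 1, N₁ + N₂ + N₃ + 3, fun N hN => ?_⟩
  have hL := h3 N (by omega)
  have hN1 : 1 ≤ N := by omega
  have hN0 : (0 : ℝ) < N := by exact_mod_cast hN1
  have hR0 : (0 : ℝ) < R := by exact_mod_cast hR
  obtain ⟨M, hM⟩ : ∃ M, M = R * N := ⟨_, rfl⟩
  have hNM : N ≤ M := by rw [hM]; exact Nat.le_mul_of_pos_left _ hR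
  obtain ⟨D, hD1, hD2, hD3, hD4⟩ := h1 M (by omega) liou (h2 M (by omega))
  rw [← hM]
  have hlR : 0 ≤ Real.log R := Real.log_nonneg (by exact_mod_cast hR)
  have hc1 : (0 : ℝ) ≤ 2 ^ c₁ := by positivity
  have hLLM : Real.log N ≤ Real.log M := Real.log_le_log hN0 (by exact_mod_cast hNM)
  have hLM2 : Real.log M ≤ 2 * Real.log N := by
    rw [hM]
    push_cast
    rw [Real.log_mul hR0.ne' hN0.ne']
    linarith
  have hL1 : 1 ≤ Real.log (N : ℝ) := by linarith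
  have hLM1 : 1 ≤ Real.log (M : ℝ) := by linarith
  -- monotonicity of `BadF` in the exponent
  have hmono : ∀ q, 1 ≤ q → BadF liou M A₁ q → BadF liou M A₂ q := by
    intro q hq hb
    obtain ⟨G, y, c0, g1, g2, g3, g4, g5⟩ := hb
    refine ⟨G, y, c0, g1, g2, g3, g4, lt_of_le_of_lt ?_ g5⟩
    have hq0 : (0 : ℝ) < q := by exact_mod_cast hq
    apply div_le_div_of_nonneg_left (by positivity) (by positivity)
    exact mul_le_mul_of_nonneg_left (pow_le_pow_right₀ hLM1 (by omega)) hq0.le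
  refine ⟨D, ?_, ?_, ?_, ?_⟩
  · intro d hd
    refine lt_of_le_of_lt ?_ (hD1 d hd)
    calc Real.log N ^ A ≤ Real.log M ^ A := pow_le_pow_left₀ (by linarith) hLLM _
      _ ≤ Real.log M ^ A₂ := pow_le_pow_right₀ hLM1 (by omega)
  · intro X hX
    exact (hD2 X hX).trans (Real.rpow_le_rpow_of_exponent_le hX hρ1)
  · intro q hq1 hq2 hq3 hb
    refine hD3 q hq1 ?_ hq3 (hmono q hq1 hb)
    refine hq2.trans ?_
    have hN1r : (1 : ℝ) ≤ N := by exact_mod_cast hN1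
    calc (N : ℝ) ^ (2 / 3 - ρ) ≤ (N : ℝ) ^ (2 / 3 - ρ') := Real.rpow_le_rpow_of_exponent_le hN1r (by linarith)
      _ ≤ (M : ℝ) ^ (2 / 3 - ρ') := Real.rpow_le_rpow hN0.le (by exact_mod_cast hNM) (by linarith)
  · intro X hX F hF
    have h4 := hD4 X (by omega) F (fun q hq => ⟨(hF q hq).1, (hF q hq).2.1, (hF q hq).2.2.1, hmono q (hF q hq).1 (hF q hq).2.2.2⟩)
    have hF0 : (0 : ℝ) ≤ F.card := Nat.cast_nonneg _
    have hNMr : (N : ℝ) ≤ M := by exact_mod_cast hNM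
    calc (F.card : ℝ) * N ≤ F.card * M := mul_le_mul_of_nonneg_left hNMr hF0
      _ ≤ (X : ℝ) ^ 2 * Real.log M ^ c₁ := h4
      _ ≤ (X : ℝ) ^ 2 * (2 * Real.log N) ^ c₁ := by
          apply mul_le_mul_of_nonneg_left _ (by positivity)
          exact pow_le_pow_left₀ (by linarith) hLM2 _
      _ = (X : ℝ) ^ 2 * (2 ^ c₁ * Real.log N ^ c₁) := by rw [mul_pow]
      _ ≤ (X : ℝ) ^ 2 * (Real.log N * Real.log N ^ c₁) := by
          apply mul_le_mul_of_nonneg_left _ (by positivity)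
          apply mul_le_mul_of_nonneg_right _ (by positivity)
          linarith
      _ = (X : ℝ) ^ 2 * Real.log N ^ (c₁ + 1) := by ring

end Pool.Agent.H96.LM
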